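import Pool.Agent.L5helper49.PW.Core

set_option autoImplicit false

/-!
# The maximum rank in spaces closed under `X Yᵀ X`
-/

namespace Pool.Agent.L5helper49.TT

open Matrix Polynomial Module

section rank

variable {K : Type*} [Field K] {m n : Type*} [Fintype m] [Fintype n] [DecidableEq m] [DecidableEq n]

lemma exists_LU (Y : Matrix m n K) : ∃ (L : Matrix (Fin Y.rank) m K) (U : Matrix n (Fin Y.rank) K),
    L * Y * U = 1 := by
  obtain ⟨b⟩ : Nonempty (Basis (Fin Y.rank) K (LinearMap.range Y.mulVecLin)) :=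
    ⟨Module.finBasisOfFinrankEq K _ rfl⟩
  have h1 : ∀ i, ∃ u, Y.mulVecLin u = b i := fun i => (b i).2
  choose u hu using h1
  obtain ⟨π, hπ⟩ := (LinearMap.range Y.mulVecLin).subtype.exists_leftInverse_of_injective
    (by rw [Submodule.ker_subtype])
  obtain ⟨l, hl⟩ : ∃ l, l = b.equivFun.toLinearMap ∘ₗ π := ⟨_, rfl⟩
  refine ⟨LinearMap.toMatrix' l, Matrix.of fun a i => u i a, ?_⟩
  ext i j
  have h2 : (LinearMap.toMatrix' l * Y * Matrix.of fun a i => u i a) i j =
      (LinearMap.toMatrix' l).mulVec (Y.mulVec (u j)) i := by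
    rw [Matrix.mul_assoc, Matrix.mul_apply, Matrix.mulVec, dotProduct]
    rfl
  rw [h2, ← Matrix.toLin'_apply (LinearMap.toMatrix' l), Matrix.toLin'_toMatrix']
  have h3 : Y.mulVec (u j) = (LinearMap.range Y.mulVecLin).subtype (b j) := hu j
  rw [h3, hl]
  have h4 : π ((LinearMap.range Y.mulVecLin).subtype (b j)) = b j := by
    have := congrArg (fun f => f (b j)) hπ
    exact this
  simp only [LinearMap.comp_apply, LinearEquiv.coe_coe]
  rw [h4, Basis.equivFun_self, Matrix.one_apply]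
  simp [eq_comm]

/-- rank at most `r` on a line -/
lemma rank_le_of_line [Infinite K] (X Y : Matrix m n K) (r : ℕ) (P : K[X]) (hP : P ≠ 0)
    (h : ∀ t : K, P.eval t ≠ 0 → (X + t • Y).rank ≤ r) : Y.rank ≤ r := by
  obtain ⟨L, U, hLU⟩ := exists_LU Y
  obtain ⟨Q, hQ⟩ : ∃ Q : K[X], Q = (L * X * U).charpoly.comp (-Polynomial.X) := ⟨_, rfl⟩
  have hQ0 : Q ≠ 0 := by
    rw [hQ]
    intro h0
    rw [comp_eq_zero_iff] at h0
    rcases h0 with h0 | ⟨-, h0⟩
    · exact (L * X * U).charpoly_monic.ne_zero h0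
    · have := congrArg (fun p => coeff p 1) h0
      simp at this
  obtain ⟨t, ht⟩ : ∃ t, (P * Q).eval t ≠ 0 := by
    by_contra hcon
    push Not at hcon
    exact mul_ne_zero hP hQ0 (Polynomial.funext fun t => by rw [hcon, eval_zero])
  rw [eval_mul] at ht
  have h1 := h t (left_ne_zero_of_mul ht)
  have h2 : Q.eval t = (-(L * (X + t • Y) * U)).det := by
    rw [hQ, eval_comp, eval_neg, eval_X, Matrix.eval_charpoly]
    congr 1
    rw [Matrix.mul_add, Matrix.add_mul, Matrix.mul_smul, Matrix.smul_mul, hLU]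
    ext i j
    by_cases hij : i = j
    · subst hij
      simp [Matrix.scalar_apply]
      ring
    · simp [Matrix.scalar_apply, hij]
  have h3 : (L * (X + t • Y) * U).rank = Y.rank := by
    have h4 : IsUnit (-(L * (X + t • Y) * U)) := by
      rw [Matrix.isUnit_iff_isUnit_det, ← h2]
      exact isUnit_iff_ne_zero.2 (right_ne_zero_of_mul ht)
    rw [rank_of_isUnit _ (by simpa using h4.neg), Fintype.card_fin]
  rw [← h3]
  exact (rank_mul_le_left _ _).trans ((rank_mul_le_right _ _).trans h1)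

lemma block_ne_zero [Infinite K] {ρ : Type*} [Fintype ρ] [DecidableEq ρ] (B₁ : Matrix ρ ρ K)
    (B₂ : Matrix ρ Unit K) (B₃ : Matrix Unit ρ K) (c : K) (hc : c ≠ 0) :
    ((Polynomial.X : K[X]) • (fromBlocks B₁ B₂ B₃ (Matrix.of fun _ _ => c)).map C +
      (fromBlocks (1 : Matrix ρ ρ K) 0 0 (0 : Matrix Unit Unit K)).map C).det ≠ 0 := by
  obtain ⟨q, hq⟩ : ∃ q : K[X], q = (fromBlocks (1 + (Polynomial.X : K[X]) • B₁.map C)
    (B₂.map C) ((Polynomial.X : K[X]) • B₃.map C)
    (Matrix.of fun _ _ => C c)).det := ⟨_, rfl⟩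
  have hq0 : q ≠ 0 := by
    intro h0
    have h1 : q.eval 0 = (fromBlocks (1 : Matrix ρ ρ K) B₂ 0 (Matrix.of fun _ _ => c)).det := by
      rw [hq, ← coe_evalRingHom, RingHom.map_det]
      congr 1
      ext i j
      rcases i with i | i <;> rcases j with j | j <;>
        simp [Matrix.one_apply, apply_ite (Polynomial.eval (0 : K))]
    rw [h0, eval_zero, det_fromBlocks_zero₂₁, det_one, one_mul,
      det_unique, Matrix.of_apply] at h1
    exact hc h1.symm
  have h2 : ((Polynomial.X : K[X]) • (fromBlocks B₁ B₂ B₃ (Matrix.of fun _ _ => c)).map C +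
      (fromBlocks (1 : Matrix ρ ρ K) 0 0 (0 : Matrix Unit Unit K)).map C).det =
      q * Polynomial.X := by
    have e1 : (fromBlocks (1 : Matrix ρ ρ K[X]) 0 0
        (Matrix.of fun (_ _ : Unit) => (Polynomial.X : K[X]))).det = Polynomial.X := by
      rw [det_fromBlocks_zero₂₁, det_one, one_mul, det_unique, Matrix.of_apply]
    nth_rw 2 [← e1]
    rw [hq, ← det_mul, fromBlocks_multiply]
    congr 1
    ext1 i j
    rcases i with i | i <;> rcases j with j | j
    · simp [Matrix.one_apply, add_comm, apply_ite C]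
    · simp only [Matrix.add_apply, Matrix.smul_apply, Matrix.map_apply, fromBlocks_apply₁₂,
        Matrix.mul_zero, Matrix.zero_apply, zero_add, Matrix.mul_apply, Matrix.of_apply,
        Finset.univ_unique, Finset.sum_singleton, smul_eq_mul, map_zero, add_zero]
      cases j
      exact mul_comm _ _
    · simp
    · simp only [Matrix.add_apply, Matrix.smul_apply, Matrix.map_apply, fromBlocks_apply₂₂,
        Matrix.mul_zero, Matrix.zero_apply, zero_add, Matrix.mul_apply, Matrix.of_apply,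
        Finset.univ_unique, Finset.sum_const, Finset.card_singleton, one_smul, smul_eq_mul, map_zero,
        add_zero]
      exact mul_comm _ _
  rw [h2]
  exact mul_ne_zero hq0 X_ne_zero

/-- **A first order move.** -/
lemma rank_lt_of_first [Infinite K] (X A : Matrix m n K) (v : n → K) (hv : X.mulVec v = 0)
    (hA : A.mulVec v ∉ LinearMap.range X.mulVecLin) (T : Finset K)
    (hT : Fintype.card n < T.card) : ∃ t ∈ T, X.rank < (X + t • A).rank := by
  obtain ⟨L, U, hLU⟩ := exists_LU X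
  obtain ⟨φ, hφ, hφX⟩ := Submodule.exists_le_ker_of_notMem hA
  -- the block matrices
  obtain ⟨Φ, hΦ⟩ : ∃ Φ : Matrix Unit m K, Φ = Matrix.of fun _ a => φ (Pi.single a 1) := ⟨_, rfl⟩
  obtain ⟨V, hV⟩ : ∃ V : Matrix n Unit K, V = Matrix.of fun a _ => v a := ⟨_, rfl⟩
  have hφe : ∀ w : m → K, φ w = ∑ a, φ (Pi.single a 1) * w a := by
    intro w
    conv_lhs => rw [pi_eq_sum_univ' w, map_sum]
    apply Finset.sum_congr rfl
    intro a _
    rw [map_smul, smul_eq_mul, mul_comm]
  have hXV : X * V = 0 := by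
    ext i j
    rw [Matrix.mul_apply, hV]
    exact congrFun hv i
  have hΦX : Φ * X = 0 := by
    ext i j
    rw [Matrix.mul_apply, hΦ]
    have h1 := hφX ⟨Pi.single j 1, rfl⟩
    rw [LinearMap.mem_ker, hφe] at h1
    rw [Matrix.zero_apply, ← h1]
    apply Finset.sum_congr rfl
    intro a _
    simp
  have hΦAV : Φ * A * V = Matrix.of fun _ _ => φ (A.mulVec v) := by
    ext i j
    rw [Matrix.mul_assoc, Matrix.mul_apply, hΦ, hV, Matrix.of_apply, hφe]
    rfl
  have hX' : fromRows L Φ * X * fromCols U V = fromBlocks 1 0 0 0 := by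
    rw [fromRows_mul, fromRows_mul_fromCols, hLU, hΦX, Matrix.mul_assoc L X V, hXV,
      Matrix.mul_zero, Matrix.zero_mul, Matrix.zero_mul]
  have hA' : fromRows L Φ * A * fromCols U V = fromBlocks (L * A * U) (L * A * V) (Φ * A * U)
      (Matrix.of fun _ _ => φ (A.mulVec v)) := by
    rw [fromRows_mul, fromRows_mul_fromCols, hΦAV]
  obtain ⟨P, hP⟩ : ∃ P : K[X], P = ((Polynomial.X : K[X]) •
    (fromRows L Φ * A * fromCols U V).map C + (fromRows L Φ * X * fromCols U V).map C).det :=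
    ⟨_, rfl⟩
  have hPe : ∀ t, P.eval t = (fromRows L Φ * (X + t • A) * fromCols U V).det := by
    intro t
    rw [hP, ← coe_evalRingHom, RingHom.map_det, Matrix.mul_add, Matrix.add_mul, Matrix.mul_smul,
      Matrix.smul_mul]
    congr 1
    obtain ⟨M, hM⟩ : ∃ M, M = fromRows L Φ * A * fromCols U V := ⟨_, rfl⟩
    obtain ⟨N, hN⟩ : ∃ N, N = fromRows L Φ * X * fromCols U V := ⟨_, rfl⟩
    rw [← hM, ← hN]
    ext i j
    simp [add_comm, mul_comm t]
  have hP0 : P ≠ 0 := by
    rw [hP, hX', hA']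
    exact block_ne_zero _ _ _ _ hφ
  have hdeg : P.natDegree ≤ X.rank + 1 := by
    rw [hP]
    have := natDegree_det_X_add_C_le (fromRows L Φ * A * fromCols U V)
      (fromRows L Φ * X * fromCols U V)
    simpa using this
  have hr : X.rank + 1 ≤ Fintype.card n := by
    have h1 := X.mulVecLin.finrank_range_add_finrank_ker
    rw [Module.finrank_fintype_fun_eq_card] at h1
    have h2 : 0 < finrank K (LinearMap.ker X.mulVecLin) := by
      rw [Nat.pos_iff_ne_zero]
      intro h3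
      have h4 := Submodule.finrank_eq_zero.1 h3
      have h5 : v ∈ LinearMap.ker X.mulVecLin := hv
      rw [h4, Submodule.mem_bot] at h5
      apply hA
      rw [h5, mulVec_zero]
      exact Submodule.zero_mem _
    rw [Matrix.rank]
    omega
  obtain ⟨t, ht, ht'⟩ : ∃ t ∈ T, P.eval t ≠ 0 := by
    by_contra hcon
    push Not at hcon
    apply hP0
    apply Polynomial.eq_zero_of_natDegree_lt_card_of_eval_eq_zero' P T hcon
    omega
  refine ⟨t, ht, ?_⟩
  rw [hPe] at ht'
  have h1 : (fromRows L Φ * (X + t • A) * fromCols U V).rank = X.rank + 1 := by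
    rw [rank_of_isUnit _ ((Matrix.isUnit_iff_isUnit_det _).2 (isUnit_iff_ne_zero.2 ht'))]
    simp
  have h2 : (fromRows L Φ * (X + t • A) * fromCols U V).rank ≤ (X + t • A).rank :=
    (rank_mul_le_left _ _).trans (rank_mul_le_right _ _)
  omega

end rank

section closed

variable {K : Type*} [Field K] {m n : Type*} [Fintype m] [Fintype n] [DecidableEq m] [DecidableEq n]

/-- The space is closed under `X Yᵀ X`. -/
def Tc (𝓛 : Submodule K (Matrix m n K)) : Prop := ∀ X ∈ 𝓛, ∀ Y ∈ 𝓛, X * Yᵀ * X ∈ 𝓛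

variable {𝓛 : Submodule K (Matrix m n K)}

lemma Tc.tri (h : Tc 𝓛) {X Y Z : Matrix m n K} (hX : X ∈ 𝓛) (hY : Y ∈ 𝓛) (hZ : Z ∈ 𝓛) :
    X * Yᵀ * Z + Z * Yᵀ * X ∈ 𝓛 := by
  have e : X * Yᵀ * Z + Z * Yᵀ * X = (X + Z) * Yᵀ * (X + Z) - X * Yᵀ * X - Z * Yᵀ * Z := by
    rw [Matrix.add_mul, Matrix.mul_add, Matrix.add_mul, Matrix.add_mul]
    abel
  rw [e]
  exact 𝓛.sub_mem (𝓛.sub_mem (h _ (𝓛.add_mem hX hZ) Y hY) (h X hX Y hY)) (h Z hZ Y hY)

variable [LinearOrder K] [IsStrictOrderedRing K]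

lemma half {X : Matrix m n K} (h : X + X ∈ 𝓛) : X ∈ 𝓛 := by
  rw [← two_smul K] at h
  exact (𝓛.smul_mem_iff (two_ne_zero)).1 h

lemma Tc.odd (h : Tc 𝓛) {X : Matrix m n K} (hX : X ∈ 𝓛) (k : ℕ) : X * (Xᵀ * X) ^ k ∈ 𝓛 := by
  induction k with
  | zero => rwa [pow_zero, Matrix.mul_one]
  | succ k ih =>
    apply half
    have h1 := h.tri hX hX ih
    have e1 : X * Xᵀ * (X * (Xᵀ * X) ^ k) = X * (Xᵀ * X) ^ (k + 1) := by
      rw [pow_succ', Matrix.mul_assoc, ← Matrix.mul_assoc Xᵀ]
    have e2 : X * (Xᵀ * X) ^ k * Xᵀ * X = X * (Xᵀ * X) ^ (k + 1) := by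
      rw [pow_succ, Matrix.mul_assoc, Matrix.mul_assoc]
    rwa [e1, e2] at h1

lemma Tc.poly (h : Tc 𝓛) {X : Matrix m n K} (hX : X ∈ 𝓛) (q : K[X]) :
    X * aeval (Xᵀ * X) q ∈ 𝓛 := by
  induction q using Polynomial.induction_on' with
  | add p q hp hq =>
    rw [map_add, Matrix.mul_add]
    exact 𝓛.add_mem hp hq
  | monomial k a =>
    rw [aeval_monomial, ← Algebra.smul_def, Matrix.mul_smul]
    exact 𝓛.smul_mem _ (h.odd hX k)

omit [LinearOrder K] [IsStrictOrderedRing K] in
lemma transpose_aeval (B : Matrix n n K) (q : K[X]) : (aeval B q)ᵀ = aeval Bᵀ q := by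
  induction q using Polynomial.induction_on' with
  | add p q hp hq => rw [map_add, map_add, transpose_add, hp, hq]
  | monomial k a =>
    rw [aeval_monomial, aeval_monomial, ← Algebra.smul_def, ← Algebra.smul_def, transpose_smul,
      transpose_pow]

/-- **A generalized inverse whose transpose is in the space.** -/
lemma Tc.exists_inv (h : Tc 𝓛) {X : Matrix m n K} (hX : X ∈ 𝓛) :
    ∃ G ∈ 𝓛, X * Gᵀ * X = X := by
  obtain ⟨B, hB⟩ : ∃ B, B = Xᵀ * X := ⟨_, rfl⟩
  have hBt : Bᵀ = B := by rw [hB, transpose_mul, transpose_transpose]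
  have hkB : LinearMap.ker (B * B).mulVecLin = LinearMap.ker B.mulVecLin := by
    have h1 := ker_mulVecLin_transpose_mul_self B
    rwa [hBt] at h1
  have hkX : LinearMap.ker B.mulVecLin = LinearMap.ker X.mulVecLin := by
    rw [hB]
    exact ker_mulVecLin_transpose_mul_self X
  have hk : ∀ (k : ℕ) (w : n → K), (B ^ (k + 1)).mulVec w = 0 → B.mulVec w = 0 := by
    intro k
    induction k with
    | zero => intro w hw; rwa [zero_add, pow_one] at hw
    | succ k ih =>
      intro w hw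
      apply ih
      have h1 : (B ^ k).mulVec w ∈ LinearMap.ker (B * B).mulVecLin := by
        rw [LinearMap.mem_ker, mulVecLin_apply, mulVec_mulVec, ← sq, ← pow_add]
        rwa [show 2 + k = k + 1 + 1 by omega]
      rw [hkB, LinearMap.mem_ker, mulVecLin_apply, mulVec_mulVec, ← pow_succ'] at h1
      exact h1
  obtain ⟨q, e, h1, h2, h3, k, h4⟩ := PW.fitting le_rfl B
  rw [pow_one, map_mul, aeval_X] at h1
  have h5 : Commute (1 - e) B := (Commute.one_left B).sub_left h3
  have h6 : B ^ (k + 1) * (1 - e) = 0 := by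
    have h7 : (1 - e) ^ k * B ^ k = 0 := by rw [← h5.mul_pow, h4]
    have h8 : (1 - e) * (1 - e) = 1 - e := by
      have e1 : (1 - e) * (1 - e) = 1 - e - e + e * e := by noncomm_ring
      rw [e1, h2]
      abel
    have h9 : (1 - e) ^ k * (1 - e) = 1 - e := by
      clear h7 h4
      induction k with
      | zero => rw [pow_zero, one_mul]
      | succ k ih => rw [pow_succ, mul_assoc, h8, ih]
    have h10 : (1 - e) * B ^ k = 0 := by
      rw [← h9, mul_assoc, (h5.pow_right k).eq, ← mul_assoc, h7, zero_mul]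
    rw [pow_succ', mul_assoc, ← (h5.pow_right k).eq, h10, mul_zero]
  have h7 : X * (1 - e) = 0 := by
    apply Matrix.mulVec_injective
    funext w
    have h8 : (1 - e).mulVec w ∈ LinearMap.ker X.mulVecLin := by
      rw [← hkX, LinearMap.mem_ker, mulVecLin_apply]
      apply hk k
      rw [mulVec_mulVec, h6, zero_mulVec]
    rw [LinearMap.mem_ker, mulVecLin_apply, mulVec_mulVec] at h8
    rw [h8, zero_mulVec]
  rw [Matrix.mul_sub, Matrix.mul_one, sub_eq_zero] at h7
  refine ⟨X * aeval B q, by rw [hB]; exact h.poly hX q, ?_⟩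
  have h8 : Commute (aeval B q) B := by
    have e2 : aeval B (Polynomial.X : K[X]) * aeval B q =
        aeval B q * aeval B (Polynomial.X : K[X]) := by
      rw [← map_mul, ← map_mul, mul_comm]
    rw [aeval_X] at e2
    exact e2.symm
  rw [transpose_mul, transpose_aeval, hBt, Matrix.mul_assoc, Matrix.mul_assoc, ← hB, h8.eq, h1,
    ← h7]

/-- the iterates -/
lemma Tc.iter (h : Tc 𝓛) {G Y : Matrix m n K} (hG : G ∈ 𝓛) (hY : Y ∈ 𝓛) (k : ℕ) :
    Y * (Gᵀ * Y) ^ k ∈ 𝓛 := by
  induction k with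
  | zero => rwa [pow_zero, Matrix.mul_one]
  | succ k ih =>
    apply half
    have h1 := h.tri hY hG ih
    have e1 : Y * Gᵀ * (Y * (Gᵀ * Y) ^ k) = Y * (Gᵀ * Y) ^ (k + 1) := by
      rw [pow_succ', Matrix.mul_assoc, ← Matrix.mul_assoc Gᵀ]
    have e2 : Y * (Gᵀ * Y) ^ k * Gᵀ * Y = Y * (Gᵀ * Y) ^ (k + 1) := by
      rw [pow_succ, Matrix.mul_assoc, Matrix.mul_assoc]
    rwa [e1, e2] at h1

lemma Tc.iter_poly (h : Tc 𝓛) {G Y : Matrix m n K} (hG : G ∈ 𝓛) (hY : Y ∈ 𝓛) (q : K[X]) :
    Y * aeval (Gᵀ * Y) q ∈ 𝓛 := by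
  induction q using Polynomial.induction_on' with
  | add p q hp hq =>
    rw [map_add, Matrix.mul_add]
    exact 𝓛.add_mem hp hq
  | monomial k a =>
    rw [aeval_monomial, ← Algebra.smul_def, Matrix.mul_smul]
    exact 𝓛.smul_mem _ (h.iter hG hY k)

omit [LinearOrder K] [IsStrictOrderedRing K] in
/-- the inverse is a polynomial -/
lemma inv_poly (M : Matrix n n K) (h : M.det ≠ 0) : ∃ q : K[X], M * aeval M q = 1 := by
  have h1 := aeval_self_charpoly M
  have h2 : M.charpoly.coeff 0 ≠ 0 := by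
    intro h3
    rw [det_eq_sign_charpoly_coeff, h3, mul_zero] at h
    exact h rfl
  refine ⟨C (-(M.charpoly.coeff 0)⁻¹) * M.charpoly.divX, ?_⟩
  rw [← divX_mul_X_add M.charpoly, map_add, map_mul, aeval_X, aeval_C] at h1
  have h3 : M * aeval M M.charpoly.divX = -algebraMap K _ (M.charpoly.coeff 0) := by
    have h8 : Commute (aeval M M.charpoly.divX) M := by
      have e2 : aeval M (Polynomial.X : K[X]) * aeval M M.charpoly.divX =
          aeval M M.charpoly.divX * aeval M (Polynomial.X : K[X]) := by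
        rw [← map_mul, ← map_mul, mul_comm]
      rw [aeval_X] at e2
      exact e2.symm
    rw [← h8.eq]
    exact eq_neg_of_add_eq_zero_left h1
  rw [map_mul, aeval_C, ← mul_assoc, ← Algebra.commutes, mul_assoc, h3, mul_neg, ← map_mul,
    ← map_neg, neg_mul, neg_neg, inv_mul_cancel₀ h2, map_one]

omit [DecidableEq m] [LinearOrder K] [IsStrictOrderedRing K] in
lemma rank_add_rank_le {p : Type*} [Fintype p] [DecidableEq p] (M : Matrix m n K)
    (W : Matrix n p K) (h : M * W = 0) : M.rank + W.rank ≤ Fintype.card n := by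
  have h1 := M.mulVecLin.finrank_range_add_finrank_ker
  rw [Module.finrank_fintype_fun_eq_card] at h1
  have h2 : LinearMap.range W.mulVecLin ≤ LinearMap.ker M.mulVecLin := by
    rintro _ ⟨v, rfl⟩
    rw [LinearMap.mem_ker, mulVecLin_apply, mulVecLin_apply, mulVec_mulVec, h, zero_mulVec]
  have h3 := Submodule.finrank_mono h2
  rw [Matrix.rank, Matrix.rank]
  omega

omit [LinearOrder K] [IsStrictOrderedRing K] in
lemma card_le_rank {e : Matrix n n K} {X : Matrix m n K} {G : Matrix n m K} (he : e = G * X) :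
    Fintype.card n ≤ (1 - e).rank + X.rank := by
  have h1 : (LinearMap.ker X.mulVecLin) ≤ LinearMap.range (1 - e).mulVecLin := by
    intro v hv
    refine ⟨v, ?_⟩
    rw [LinearMap.mem_ker, mulVecLin_apply] at hv
    rw [mulVecLin_apply, sub_mulVec, one_mulVec, he, ← mulVec_mulVec, hv, mulVec_zero, sub_zero]
  have h2 := Submodule.finrank_mono h1
  have h3 := X.mulVecLin.finrank_range_add_finrank_ker
  rw [Module.finrank_fintype_fun_eq_card] at h3
  rw [Matrix.rank, Matrix.rank]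
  omega

/-- **The criterion.** -/
theorem Tc.rank_max (h : Tc 𝓛) {X : Matrix m n K} (hX : X ∈ 𝓛)
    (h0 : ∀ Y ∈ 𝓛, ∀ v, X.mulVec v = 0 → Y.mulVec v ∈ LinearMap.range X.mulVecLin)
    {Y : Matrix m n K} (hY : Y ∈ 𝓛) : Y.rank ≤ X.rank := by
  obtain ⟨G, hG, hXG⟩ := h.exists_inv hX
  obtain ⟨e, he⟩ : ∃ e, e = Gᵀ * X := ⟨_, rfl⟩
  have hXe : X * (1 - e) = 0 := by
    rw [Matrix.mul_sub, Matrix.mul_one, he, ← Matrix.mul_assoc, hXG, sub_self]
  obtain ⟨N, hN⟩ : ∃ N, N = Gᵀ * Y := ⟨_, rfl⟩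
  apply rank_le_of_line X Y X.rank (charpolyRev (-N))
  · intro h1
    have h2 := eval_charpolyRev (M := -N)
    rw [h1, eval_zero] at h2
    exact zero_ne_one h2
  intro t ht
  have ht' : (1 + t • N).det ≠ 0 := by
    intro h1
    apply ht
    rw [charpolyRev, ← coe_evalRingHom, RingHom.map_det, ← h1]
    congr 1
    ext i j
    by_cases hij : i = j
    · subst hij; simp [mul_comm t]
    · simp [hij, mul_comm t]
  obtain ⟨q, hq⟩ := inv_poly _ ht'
  obtain ⟨R, hR⟩ : ∃ R, R = aeval (1 + t • N) q := ⟨_, rfl⟩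
  have hR' : R = aeval N (q.comp (1 + C t * Polynomial.X)) := by
    rw [hR, aeval_comp]
    congr 2
    rw [map_add, map_one, map_mul, aeval_C, aeval_X, Algebra.smul_def]
  rw [← hR] at hq
  obtain ⟨W, hW⟩ : ∃ W, W = R * (1 - e) := ⟨_, rfl⟩
  have h1 : X * W = -(t • (X * (N * W))) := by
    have h2 : (1 + t • N) * W = 1 - e := by rw [hW, ← mul_assoc, hq, one_mul]
    have h3 : X * ((1 + t • N) * W) = X * (1 - e) := by rw [h2]
    rw [hXe, add_mul, one_mul, Matrix.mul_add, smul_mul_assoc, Matrix.mul_smul] at h3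
    exact eq_neg_of_add_eq_zero_left h3
  have h2 : X * (Gᵀ * (Y * W)) = Y * W := by
    apply Matrix.mulVec_injective
    funext v
    have h3 : Y.mulVec (W.mulVec v) ∈ LinearMap.range X.mulVecLin := by
      have h4 := h0 _ (h.iter_poly hG hY (q.comp (1 + C t * Polynomial.X))) ((1 - e).mulVec v)
        (by rw [mulVec_mulVec, hXe, zero_mulVec])
      rw [← hN, ← hR', ← mulVec_mulVec] at h4
      rwa [hW, ← mulVec_mulVec]
    obtain ⟨u, hu⟩ := h3
    rw [mulVecLin_apply] at hu
    rw [← mulVec_mulVec, ← mulVec_mulVec, ← mulVec_mulVec, ← hu, mulVec_mulVec, mulVec_mulVec,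
      hXG]
  have h3 : (X + t • Y) * W = 0 := by
    rw [Matrix.add_mul, h1, Matrix.smul_mul, hN, Matrix.mul_assoc Gᵀ, h2, neg_add_cancel]
  have h4 := rank_add_rank_le _ _ h3
  have h5 : W.rank = (1 - e).rank := by
    rw [hW]
    apply rank_mul_eq_right_of_isUnit_det
    have h6 := congrArg Matrix.det hq
    rw [det_mul, det_one] at h6
    exact IsUnit.of_mul_eq_one_right _ h6
  have h6 := card_le_rank he
  omega

end closed

end Pool.Agent.L5helper49.TT
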