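import Pool.Agent.L5helper49.TT.Core
import Pool.Agent.L5helper49.LT.Dec

set_option autoImplicit false

/-!
# The algorithm for the maximum rank
-/

namespace Pool.Agent.L5helper49.TT

open Module Submodule Function
open Pool.Agent.Lib.CX Pool.Agent.Lib.helper22.CXDet
open Pool.Agent.Lib.Par (rk rk_eq pt_rk ls_opt)
open Pool.Agent.L5helper60.SR (Inp dim mat ent cden ient pt_dim pb_dim pt_ient ient_cast cden_ne
  mat_apply rank_smul' rank_add_ker det_eq_zero_iff)
open Pool.Agent.L5helper49.PW

/-- an entry of the product of the transpose of a generator and a generator -/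
def mt2 (L : Inp) (j l s t : ℕ) : ℤ :=
  ((List.range (dim L)).map fun u => ient L j u s * ient L l u t).sum

/-- an entry of `A_i A_jᵀ A_l` -/
def mt3 (L : Inp) (i j l s t : ℕ) : ℤ :=
  ((List.range (dim L)).map fun u => ient L i s u * mt2 L j l u t).sum

/-- an entry of the triple product -/
def tp (L : Inp) (i j l s t : ℕ) : ℤ := mt3 L i j l s t + mt3 L l j i s t

/-- the generators as vectors, the last one is a triple product -/
def gt (L : Inp) (i j l r q : ℕ) : ℤ :=
  if r < L.length then ient L r (q / dim L) (q % dim L) else tp L i j l (q / dim L) (q % dim L)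

/-- the test -/
def tstT (L : Inp) : Bool := (List.range L.length).all fun i => (List.range L.length).all fun j =>
  (List.range L.length).all fun l =>
    decide (grk (L.length + 1) (dim L * dim L) (gt L i j l) ≤
      grk L.length (dim L * dim L) (gt L i j l))

/-- the rank -/
def rkv (L : Inp) (x : List ℕ) : ℕ := grk (dim L) (dim L) (e1 L x)

/-- the substitution found by the local search -/
def solT (L : Inp) : List ℕ :=
  (fun x => ((nbr 1 L 1 x).filter (rkv L x < rkv L ·)).headD x)^[nb 1 L]
    (List.replicate L.length 0)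

lemma solT_inv (L : Inp) (k : ℕ) :
    ∀ x, x = (fun x => ((nbr 1 L 1 x).filter (rkv L x < rkv L ·)).headD x)^[k]
        (List.replicate L.length 0) →
      x.length = L.length ∧ ∀ v ∈ x, v ≤ nb 1 L := by
  induction k with
  | zero =>
    rintro _ rfl
    simp
  | succ k ih =>
    rintro _ rfl
    rw [iterate_succ_apply']
    obtain ⟨h1, h2⟩ := ih _ rfl
    generalize (fun x => ((nbr 1 L 1 x).filter (rkv L x < rkv L ·)).headD x)^[k]
      (List.replicate L.length 0) = x at *
    rcases h : (nbr 1 L 1 x).filter (rkv L x < rkv L ·) with _ | ⟨y, l⟩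
    · exact ⟨h1, h2⟩
    exact nbr_inv 1 L 1 x h1 h2 y (List.mem_filter.1 (h ▸ List.mem_cons_self : y ∈ _)).1

section

variable {α : Type} [Enc α] {L : α → Inp} {i j k l m w : α → ℕ} {x : α → List ℕ}

attribute [local irreducible] ent cden dim ient e1 grk nb

@[fun_prop] lemma pt_mt2 (hL : PT L) (hj : PT j) (hl : PT l) (hk : PT k) (hm : PT m) :
    PT fun a => mt2 (L a) (j a) (l a) (k a) (m a) := by
  unfold mt2; fun_prop

attribute [local irreducible] mt2

@[fun_prop] lemma pt_mt3 (hL : PT L) (hi : PT i) (hj : PT j) (hl : PT l) (hk : PT k) (hm : PT m) :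
    PT fun a => mt3 (L a) (i a) (j a) (l a) (k a) (m a) := by
  unfold mt3; fun_prop

attribute [local irreducible] mt3

@[fun_prop] lemma pt_tp (hL : PT L) (hi : PT i) (hj : PT j) (hl : PT l) (hk : PT k) (hm : PT m) :
    PT fun a => tp (L a) (i a) (j a) (l a) (k a) (m a) := by
  unfold tp; fun_prop

attribute [local irreducible] tp

@[fun_prop] lemma pt_gt (hL : PT L) (hi : PT i) (hj : PT j) (hl : PT l) (hk : PT k) (hm : PT m) :
    PT fun a => gt (L a) (i a) (j a) (l a) (k a) (m a) := by
  unfold gt; fun_prop

@[fun_prop] lemma pt_rkv (hL : PT L) (hx : PT x) : PT fun a => rkv (L a) (x a) := by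
  unfold rkv; fun_prop

attribute [local irreducible] gt rkv

lemma pt_tstT : PT tstT := by
  unfold tstT; fun_prop

lemma pt_solT : PT solT :=
  PT.iterate (B := fun L => L.length * (3 * nb 1 L + 2 + 1) + 2)
    (by fun_prop) (by fun_prop) (by fun_prop) (by fun_prop) (by fun_prop) fun L k _ => by
      obtain ⟨h1, h2⟩ := solT_inv L k _ rfl
      exact (size_list_le fun v hv => (size_nat_mono (h2 v hv)).trans
        (size_nat_le _)).trans_eq (by rw [h1])

end

/-! ### The optimality criterion for a spanning family -/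

section span

variable {K : Type*} [Field K] [LinearOrder K] [IsStrictOrderedRing K] {m n : Type*} [Fintype m]
  [Fintype n] [DecidableEq m] [DecidableEq n] {k : ℕ}

/-- a linear combination of rectangular matrices -/
def lc (A : Fin k → Matrix m n K) (x : Fin k → K) : Matrix m n K := ∑ i, x i • A i

omit [LinearOrder K] [IsStrictOrderedRing K] [Fintype m] [Fintype n] [DecidableEq m]
  [DecidableEq n] in
lemma lc_mem (A : Fin k → Matrix m n K) (x : Fin k → K) : lc A x ∈ span K (Set.range A) :=
  Submodule.sum_mem _ fun _ _ => Submodule.smul_mem _ _ (subset_span ⟨_, rfl⟩)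

/-- **First order optimality.** -/
theorem first_order (A : Fin k → Matrix m n K) (h : Tc (span K (Set.range A))) (x : Fin k → K)
    (h0 : ∀ i v, (lc A x).mulVec v = 0 → (A i).mulVec v ∈ LinearMap.range (lc A x).mulVecLin)
    (y : Fin k → K) : (lc A y).rank ≤ (lc A x).rank := by
  refine h.rank_max (lc_mem A x) ?_ (lc_mem A y)
  intro Y hY v hv
  induction hY using Submodule.span_induction with
  | mem Y hY =>
    obtain ⟨i, rfl⟩ := hY
    exact h0 i v hv
  | zero => rw [Matrix.zero_mulVec]; exact Submodule.zero_mem _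
  | add Y Z _ _ hY hZ => rw [Matrix.add_mulVec]; exact Submodule.add_mem _ hY hZ
  | smul c Y _ hY => rw [Matrix.smul_mulVec]; exact Submodule.smul_mem _ _ hY

/-- **Local optimality.** -/
theorem local_opt (A : Fin k → Matrix m n K) (h : Tc (span K (Set.range A))) (x : Fin k → K)
    (S : Finset K) (hS : Fintype.card n < S.card)
    (h0 : ∀ i, ∀ s ∈ S, (lc A (Function.update x i s)).rank ≤ (lc A x).rank)
    (y : Fin k → K) : (lc A y).rank ≤ (lc A x).rank := by
  classical
  apply first_order A h x
  intro i v hv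
  by_contra hcon
  obtain ⟨t, ht, ht'⟩ := rank_lt_of_first (lc A x) (A i) v hv hcon (S.image fun s => s - x i) (by
    rw [Finset.card_image_of_injective]
    · exact hS
    · intro s t h
      simpa using h)
  obtain ⟨s, hs, rfl⟩ := Finset.mem_image.1 ht
  have h1 := h0 i s hs
  have h2 : lc A (Function.update x i s) = lc A x + (s - x i) • A i := by
    rw [lc, lc, ← Finset.add_sum_erase _ _ (Finset.mem_univ i),
      ← Finset.add_sum_erase _ (fun j => x j • A j) (Finset.mem_univ i), Function.update_self]
    have h3 : ∑ j ∈ Finset.univ.erase i, Function.update x i s j • A j =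
        ∑ j ∈ Finset.univ.erase i, x j • A j := by
      apply Finset.sum_congr rfl
      intro j hj
      rw [Function.update_of_ne (Finset.ne_of_mem_erase hj)]
    rw [h3, sub_smul]
    abel
  rw [h2] at h1
  omega

/-- the triple product -/
def tl (X Y Z : Matrix m n K) : Matrix m n K := X * (Y.transpose * Z) + Z * (Y.transpose * X)

omit [LinearOrder K] [IsStrictOrderedRing K] [DecidableEq m] [DecidableEq n] in
lemma tl_comm (X Y Z : Matrix m n K) : tl X Y Z = tl Z Y X := add_comm _ _

lemma tc_gens (A : Fin k → Matrix m n K) : Tc (span K (Set.range A)) ↔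
    ∀ i j l, tl (A i) (A j) (A l) ∈ span K (Set.range A) := by
  obtain ⟨𝓛, h𝓛⟩ : ∃ 𝓛, 𝓛 = span K (Set.range A) := ⟨_, rfl⟩
  have hA : ∀ i, A i ∈ 𝓛 := fun i => by rw [h𝓛]; exact subset_span ⟨i, rfl⟩
  rw [← h𝓛]
  constructor
  · intro h i j l
    have h1 := h.tri (hA i) (hA j) (hA l)
    rw [Matrix.mul_assoc, Matrix.mul_assoc] at h1
    exact h1
  · intro h
    have h1 : ∀ i j, ∀ Z ∈ 𝓛, tl (A i) (A j) Z ∈ 𝓛 := by
      intro i j Z hZ
      rw [h𝓛] at hZ
      induction hZ using Submodule.span_induction with
      | mem Z hZ => obtain ⟨l, rfl⟩ := hZ; exact h i j l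
      | zero => simp [tl]
      | add Y Z _ _ hY hZ =>
        have e : tl (A i) (A j) (Y + Z) = tl (A i) (A j) Y + tl (A i) (A j) Z := by
          simp only [tl, Matrix.mul_add, Matrix.add_mul]
          abel
        rw [e]
        exact 𝓛.add_mem hY hZ
      | smul c Y _ hY =>
        have e : tl (A i) (A j) (c • Y) = c • tl (A i) (A j) Y := by
          simp only [tl, Matrix.mul_smul, Matrix.smul_mul, smul_add]
        rw [e]
        exact 𝓛.smul_mem _ hY
    have h2 : ∀ j, ∀ X ∈ 𝓛, ∀ Z ∈ 𝓛, tl X (A j) Z ∈ 𝓛 := by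
      intro j X hX Z hZ
      rw [h𝓛] at hX
      induction hX using Submodule.span_induction with
      | mem X hX => obtain ⟨l, rfl⟩ := hX; exact h1 l j Z hZ
      | zero => simp [tl]
      | add Y W _ _ hY hW =>
        have e : tl (Y + W) (A j) Z = tl Y (A j) Z + tl W (A j) Z := by
          simp only [tl, Matrix.mul_add, Matrix.add_mul]
          abel
        rw [e]
        exact 𝓛.add_mem hY hW
      | smul c Y _ hY =>
        have e : tl (c • Y) (A j) Z = c • tl Y (A j) Z := by
          simp only [tl, Matrix.mul_smul, Matrix.smul_mul, smul_add]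
        rw [e]
        exact 𝓛.smul_mem _ hY
    intro X hX Y hY
    apply half
    have e0 : X * Y.transpose * X + X * Y.transpose * X = tl X Y X := by
      rw [tl, Matrix.mul_assoc]
    rw [e0]
    rw [h𝓛] at hY
    induction hY using Submodule.span_induction with
    | mem Y hY => obtain ⟨l, rfl⟩ := hY; exact h2 l X hX X hX
    | zero => simp [tl]
    | add Y W _ _ hY hW =>
      have e : tl X (Y + W) X = tl X Y X + tl X W X := by
        simp only [tl, Matrix.transpose_add, Matrix.mul_add, Matrix.add_mul]
        abel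
      rw [e]
      exact 𝓛.add_mem (hY (by rw [tl, Matrix.mul_assoc])) (hW (by rw [tl, Matrix.mul_assoc]))
    | smul c Y _ hY =>
      have e : tl X (c • Y) X = c • tl X Y X := by
        simp only [tl, Matrix.transpose_smul, Matrix.mul_smul, Matrix.smul_mul, smul_add]
      rw [e]
      exact 𝓛.smul_mem _ (hY (by rw [tl, Matrix.mul_assoc]))

end span

/-! ### Correctness -/

lemma mt2_cast (L : Inp) (j l : ℕ) (s t : Fin (dim L)) :
    (mt2 L j l s t : ℚ) = (((cden L : ℚ) ^ 2) • ((mat L j).transpose * mat L l)) s t := by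
  rw [mt2, ← List.sum_toFinset _ List.nodup_range, List.toFinset_range, Finset.sum_range,
    Int.cast_sum, Matrix.smul_apply, Matrix.mul_apply, smul_eq_mul, Finset.mul_sum]
  apply Finset.sum_congr rfl
  intro u _
  rw [Int.cast_mul, ient_cast, ient_cast, Matrix.transpose_apply, mat_apply, mat_apply]
  ring

lemma mt3_cast (L : Inp) (i j l : ℕ) (s t : Fin (dim L)) :
    (mt3 L i j l s t : ℚ) =
      (((cden L : ℚ) ^ 3) • (mat L i * ((mat L j).transpose * mat L l))) s t := by
  rw [mt3, ← List.sum_toFinset _ List.nodup_range, List.toFinset_range, Finset.sum_range,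
    Int.cast_sum, Matrix.smul_apply, Matrix.mul_apply, smul_eq_mul, Finset.mul_sum]
  apply Finset.sum_congr rfl
  intro u _
  rw [Int.cast_mul, ient_cast, mt2_cast, mat_apply, Matrix.smul_apply, smul_eq_mul]
  ring

lemma tp_cast (L : Inp) (i j l : ℕ) (s t : Fin (dim L)) :
    (tp L i j l s t : ℚ) = (((cden L : ℚ) ^ 3) • tl (mat L i) (mat L j) (mat L l)) s t := by
  rw [tp, Int.cast_add, mt3_cast, mt3_cast, ← Matrix.add_apply, ← smul_add]
  rfl

lemma tstT_iff (L : Inp) : tstT L = true ↔ Tc (spn L) := by
  rw [spn, tc_gens]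
  simp only [tstT, List.all_eq_true, List.mem_range, decide_eq_true_eq]
  have h1 : ∀ i j l, grk (L.length + 1) (dim L * dim L) (gt L i j l) ≤
      grk L.length (dim L * dim L) (gt L i j l) ↔
      tl (mat L i) (mat L j) (mat L l) ∈ spn L := by
    intro i j l
    exact LT.grk_mem L _ (tp L i j l) _ _ (pow_ne_zero 3 (cden_ne L)) (fun _ _ => rfl)
      (tp_cast L i j l)
  constructor
  · intro h i j l
    exact (h1 i j l).1 (h i i.2 j j.2 l l.2)
  · intro h i hi j hj l hl
    exact (h1 i j l).2 (h ⟨i, hi⟩ ⟨j, hj⟩ ⟨l, hl⟩)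

lemma rkv_eq (L : Inp) (x : List ℕ) : rkv L x = (lval L (vl x)).rank := by
  rw [rkv, grk_eq]
  have e : (Matrix.of fun i j : Fin (dim L) => (e1 L x i j : ℚ)) =
      (cden L : ℚ) • lval L (vl x) := by
    ext i j
    rw [Matrix.of_apply, e1_cast]
  rw [e, rank_smul' (cden_ne L)]

lemma lval_lc (L : Inp) (y : ℕ → ℚ) :
    lval L y = lc (fun i : Fin L.length => mat L i) fun i => y i := lval_cmb L y

/-- **The local search finds the maximum rank.** -/
theorem solT_max {L : Inp} (h : Tc (spn L)) (y : ℕ → ℚ) :
    (lval L y).rank ≤ (lval L (vl (solT L))).rank := by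
  have o := ls_opt (nbr 1 L 1) (rkv L) (List.replicate L.length 0) (K := nb 1 L) fun x => by
    have h1 := rkv_eq L x
    have h2 := Matrix.rank_le_width (lval L (vl x))
    unfold nb
    nlinarith
  have hl := (solT_inv L (nb 1 L) _ rfl).1
  change ∀ y ∈ nbr 1 L 1 (solT L), _ ≤ rkv L (solT L) at o
  change (solT L).length = _ at hl
  rw [lval_lc L y, lval_lc L (vl (solT L))]
  refine local_opt (fun i : Fin L.length => mat L i) h (fun i : Fin L.length => vl (solT L) i)
    ((Finset.range (nb 1 L + 1)).image fun v : ℕ => (v : ℚ)) ?_ ?_ _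
  · rw [Finset.card_image_of_injective _ Nat.cast_injective, Finset.card_range, Fintype.card_fin]
    unfold nb
    nlinarith
  · intro i s hs
    obtain ⟨z, hz, hzw⟩ := exists_nbr 1 L 1 (solT L) hl
      (Function.update (fun i : Fin L.length => vl (solT L) i) i s) (fun l => by
        by_cases hli : l = i
        · subst hli
          rw [Function.update_self]
          exact Or.inr hs
        · rw [Function.update_of_ne hli]
          exact Or.inl rfl) ⟨{i}, by simp, fun l hl => by
            rw [Function.update_of_ne (by simpa using hl)]⟩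
    have h4 := o z hz
    rw [rkv_eq, rkv_eq, lval_lc L (vl z), lval_lc L (vl (solT L)),
      show (fun i : Fin L.length => vl z i) =
        Function.update (fun i : Fin L.length => vl (solT L) i) i s from funext hzw] at h4
    exact h4

/-- **The maximum rank is computed in polynomial time.** -/
theorem inPT : InP fun p : Inp × ℕ => Tc (spn p.1) ∧ ∀ y : ℕ → ℚ, (lval p.1 y).rank ≤ p.2 := by
  refine ⟨fun p => tstT p.1 && decide (rkv p.1 (solT p.1) ≤ p.2), ?_, fun p => ?_⟩
  · have h1 := pt_tstT
    have h2 := pt_solT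
    fun_prop
  · rw [Bool.and_eq_true, tstT_iff, decide_eq_true_eq, rkv_eq]
    refine and_congr_right fun h => ?_
    constructor
    · intro h1
      exact h1 _
    · intro h1 y
      exact (solT_max h y).trans h1

end Pool.Agent.L5helper49.TT
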