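import Pool.Agent.L5helper49.TT.Dec
import Pool.Agent.L5helper49.PW.Extra

set_option autoImplicit false

/-!
# Definitions and examples of spaces closed under `X Yᵀ X`
-/

namespace Pool.Agent.L5helper49.TT

open Module Submodule Matrix
open Pool.Agent.L5helper60.SR (Inp dim mat)
open Pool.Agent.L5helper49.PW

section general

variable {K : Type*} [Field K] {m n : ℕ}

/-- The space is closed under `X Yᵀ X`. -/
def TransposeTriple (𝓛 : Submodule K (Matrix (Fin m) (Fin n) K)) : Prop :=
  ∀ X ∈ 𝓛, ∀ Y ∈ 𝓛, X * Yᵀ * X ∈ 𝓛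

/-- The combination `x₁ A₁ + … + x_k A_k`. -/
def comb {k : ℕ} (A : Fin k → Matrix (Fin m) (Fin n) K) (x : Fin k → K) :
    Matrix (Fin m) (Fin n) K := ∑ i, x i • A i

/-- The space of all `X` with `Q_i X = X P_i` and `Q_iᵀ X = X P_iᵀ`. -/
def inter {ι : Type} (P : ι → Matrix (Fin n) (Fin n) K) (Q : ι → Matrix (Fin m) (Fin m) K) :
    Submodule K (Matrix (Fin m) (Fin n) K) where
  carrier := {X | ∀ i, Q i * X = X * P i ∧ (Q i)ᵀ * X = X * (P i)ᵀ}
  zero_mem' := by simp
  add_mem' := by
    intro X Y hX hY i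
    rw [Matrix.mul_add, Matrix.add_mul, Matrix.mul_add, Matrix.add_mul, (hX i).1, (hX i).2,
      (hY i).1, (hY i).2]
    exact ⟨rfl, rfl⟩
  smul_mem' := by
    intro c X hX i
    rw [Matrix.mul_smul, Matrix.smul_mul, Matrix.mul_smul, Matrix.smul_mul, (hX i).1, (hX i).2]
    exact ⟨rfl, rfl⟩

/-- The space of all `X` with `U_i X = ε_i Xᵀ U_i`. -/
def symm {ι : Type} (U : ι → Matrix (Fin n) (Fin n) K) (ε : ι → K) :
    Submodule K (Matrix (Fin n) (Fin n) K) where
  carrier := {X | ∀ i, U i * X = ε i • (Xᵀ * U i)}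
  zero_mem' := by simp
  add_mem' := by
    intro X Y hX hY i
    rw [mul_add, transpose_add, add_mul, smul_add, hX i, hY i]
  smul_mem' := by
    intro c X hX i
    rw [mul_smul_comm, hX i, transpose_smul, smul_mul_assoc, smul_comm]

lemma inter_closed {ι : Type} (P : ι → Matrix (Fin n) (Fin n) K)
    (Q : ι → Matrix (Fin m) (Fin m) K) : TransposeTriple (inter P Q) := by
  intro X hX Y hY i
  have h1 : P i * Yᵀ = Yᵀ * Q i := by
    have := congrArg Matrix.transpose (hY i).2
    rw [transpose_mul, transpose_mul, transpose_transpose, transpose_transpose] at this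
    exact this.symm
  have h2 : (P i)ᵀ * Yᵀ = Yᵀ * (Q i)ᵀ := by
    have := congrArg Matrix.transpose (hY i).1
    rw [transpose_mul, transpose_mul] at this
    exact this.symm
  constructor
  · rw [← Matrix.mul_assoc, ← Matrix.mul_assoc, (hX i).1, Matrix.mul_assoc X, h1,
      ← Matrix.mul_assoc, Matrix.mul_assoc _ (Q i), (hX i).1, ← Matrix.mul_assoc]
  · rw [← Matrix.mul_assoc, ← Matrix.mul_assoc, (hX i).2, Matrix.mul_assoc X, h2,
      ← Matrix.mul_assoc, Matrix.mul_assoc _ (Q i)ᵀ, (hX i).2, ← Matrix.mul_assoc]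

lemma symm_closed {ι : Type} (U : ι → Matrix (Fin n) (Fin n) K) (ε : ι → K)
    (hU : ∀ i, (U i)ᵀ * U i = 1) (hε : ∀ i, ε i * ε i = 1) : TransposeTriple (symm U ε) := by
  intro X hX Y hY i
  have hU' : U i * (U i)ᵀ = 1 := by rw [mul_eq_one_comm, hU]
  have h1 : U i * Yᵀ = ε i • (Y * U i) := by
    have h2 := congrArg Matrix.transpose (hY i)
    rw [transpose_mul, transpose_smul, transpose_mul, transpose_transpose] at h2
    have h3 : U i * (Yᵀ * (U i)ᵀ) * U i = U i * (ε i • ((U i)ᵀ * Y)) * U i := by rw [h2]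
    rw [mul_assoc, mul_assoc Yᵀ, hU, mul_one, mul_smul_comm, ← mul_assoc (U i), hU', one_mul,
      smul_mul_assoc] at h3
    exact h3
  have h2 : Xᵀ * U i = ε i • (U i * X) := by
    rw [hX i, smul_smul, hε, one_smul]
  rw [← mul_assoc, ← mul_assoc, hX i, smul_mul_assoc, smul_mul_assoc, mul_assoc Xᵀ, h1,
    mul_smul_comm, smul_mul_assoc, transpose_mul, transpose_mul, transpose_transpose]
  congr 1
  have h3 : ε i • (Xᵀ * (Y * U i) * X) = Xᵀ * Y * (ε i • (U i * X)) := by
    simp only [mul_assoc, mul_smul_comm]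
  rw [h3, ← h2]
  simp only [mul_assoc]

end general

lemma sk_triple : TransposeTriple (Submodule.span ℚ (Set.range sk)) := by
  have h1 : ∀ M : Matrix (Fin 3) (Fin 3) ℚ, M ∈ Submodule.span ℚ (Set.range sk) ↔ Mᵀ = -M := by
    intro M
    rw [Submodule.mem_span_range_iff_exists_fun]
    have h2 : ∀ x : Fin 3 → ℚ, ∑ i, x i • sk i = cmb sk x := fun _ => rfl
    constructor
    · rintro ⟨x, rfl⟩
      rw [h2, sk_cmb]
      ext i j
      fin_cases i <;> fin_cases j <;> simp
    · intro h
      have e := fun i j => congrFun (congrFun h i) j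
      refine ⟨![M 2 1, M 0 2, M 1 0], ?_⟩
      rw [h2, sk_cmb]
      have a := e 0 0
      have b := e 1 1
      have c := e 2 2
      have d := e 0 1
      have f := e 0 2
      have g := e 1 2
      simp only [transpose_apply, Matrix.neg_apply] at a b c d f g
      ext i j
      fin_cases i <;> fin_cases j <;> simp <;> linarith
  intro X hX Y hY
  rw [h1] at hX hY ⊢
  rw [transpose_mul, transpose_mul, transpose_transpose, hX, hY]
  noncomm_ring

end Pool.Agent.L5helper49.TT
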